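import Pool.Agent.Helper553_RK.FinMain

open Finset

namespace Pool.Agent.Results.MP_8b86ce_co.EPositive

/-- The map `R_k` on formal power series in the variables `x_0, x_1, x_2, ...` over `ℚ`: the
coefficient of `x^d` in `R_k f` is the coefficient of `x^(k d)` in `f`.  In words: discard every
monomial having an exponent not divisible by `k` and divide all exponents of the remaining
monomials by `k`. -/
noncomputable def Rk (k : ℕ) : MvPowerSeries ℕ ℚ →ₗ[ℚ] MvPowerSeries ℕ ℚ where
  toFun f := fun d => MvPowerSeries.coeff (k • d) f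
  map_add' _ _ := rfl
  map_smul' _ _ := rfl

open Classical in
/-- The elementary symmetric function `e_r` in the variables `x_0, x_1, x_2, ...`: the sum of all
squarefree monomials of degree `r`. -/
noncomputable def elem (r : ℕ) : MvPowerSeries ℕ ℚ :=
  fun d => if (∀ i, d i ≤ 1) ∧ (d.sum fun _ a => a) = r then 1 else 0

/-- `e_l = e_(l_1) e_(l_2) ...` for a partition `l`. -/
noncomputable def elemPart {n : ℕ} (l : n.Partition) : MvPowerSeries ℕ ℚ :=
  (l.parts.map elem).prod

lemma coeff_Rk (k : ℕ) (f : MvPowerSeries ℕ ℚ) (d : ℕ →₀ ℕ) :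
    MvPowerSeries.coeff d (Rk k f) = MvPowerSeries.coeff (k • d) f := rfl

/-- exponents in the first `N` variables as exponents in all variables -/
noncomputable def emb {N : ℕ} (ν : Fin N →₀ ℕ) : ℕ →₀ ℕ := Finsupp.mapDomain Fin.val ν

lemma emb_apply {N : ℕ} (ν : Fin N →₀ ℕ) (i : Fin N) : emb ν i.val = ν i :=
  Finsupp.mapDomain_apply Fin.val_injective ν i

lemma emb_notin {N : ℕ} (ν : Fin N →₀ ℕ) {i : ℕ} (hi : N ≤ i) : emb ν i = 0 := by
  apply Finsupp.mapDomain_notin_range
  rintro ⟨j, rfl⟩
  exact absurd j.isLt (by omega)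

lemma emb_sum {N : ℕ} (ν : Fin N →₀ ℕ) : ((emb ν).sum fun _ a => a) = ∑ i, ν i := by
  unfold emb
  rw [Finsupp.sum_mapDomain_index (fun _ => rfl) (fun _ _ _ => rfl),
    Finsupp.sum_fintype _ _ (fun _ => rfl)]

lemma coeff_elem {N : ℕ} (ν : Fin N →₀ ℕ) (r : ℕ) :
    MvPowerSeries.coeff (emb ν) (elem r) =
      MvPolynomial.coeff ν (MvPolynomial.esymm (Fin N) ℚ r) := by
  have e1 : MvPowerSeries.coeff (emb ν) (elem r) = elem r (emb ν) := rfl
  rw [e1]
  unfold elem MvPolynomial.esymm
  rw [MvPolynomial.coeff_sum]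
  simp only [H553RK.prod_X_eq, MvPolynomial.coeff_monomial]
  rw [emb_sum]
  by_cases h : (∀ i, emb ν i ≤ 1) ∧ ∑ i, ν i = r
  · rw [if_pos h]
    have hle : ∀ i, ν i ≤ 1 := fun i => by
      have := h.1 i.val
      rwa [emb_apply] at this
    have hind : H553RK.ind ν.support = ν := by
      ext i
      rw [H553RK.ind_apply]
      split_ifs with hi
      · rw [Finsupp.mem_support_iff] at hi
        have := hle i
        omega
      · rw [Finsupp.mem_support_iff, not_not] at hi
        exact hi.symm
    rw [Finset.sum_eq_single ν.support, if_pos hind]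
    · intro M _ hne
      rw [if_neg]
      intro hM
      apply hne
      rw [← hM]
      ext i
      rw [Finsupp.mem_support_iff, H553RK.ind_apply]
      split_ifs with hi
      · simp [hi]
      · simp [hi]
    · intro hn
      exfalso
      apply hn
      rw [mem_powersetCard]
      refine ⟨subset_univ _, ?_⟩
      rw [← H553RK.ind_sum, hind]
      exact h.2
  · rw [if_neg h]
    symm
    apply Finset.sum_eq_zero
    intro M hM
    rw [mem_powersetCard] at hM
    rw [if_neg]
    rintro rfl
    apply h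
    constructor
    · intro i
      by_cases hi : i < N
      · have := emb_apply (H553RK.ind M) ⟨i, hi⟩
        simp only at this
        rw [this, H553RK.ind_apply]
        split_ifs <;> omega
      · rw [emb_notin _ (by omega)]
        omega
    · rw [H553RK.ind_sum, hM.2]

lemma emb_add {N : ℕ} (a b : Fin N →₀ ℕ) : emb (a + b) = emb a + emb b :=
  Finsupp.mapDomain_add

lemma emb_injective {N : ℕ} : Function.Injective (emb : (Fin N →₀ ℕ) → (ℕ →₀ ℕ)) :=
  Finsupp.mapDomain_injective Fin.val_injective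

lemma exists_emb {N : ℕ} {d : ℕ →₀ ℕ} (h : ∀ i, N ≤ i → d i = 0) :
    ∃ ν : Fin N →₀ ℕ, emb ν = d := by
  refine ⟨Finsupp.equivFunOnFinite.symm (fun i => d i.val), ?_⟩
  ext i
  by_cases hi : i < N
  · exact emb_apply _ ⟨i, hi⟩
  · rw [emb_notin _ (by omega), h i (by omega)]

lemma coeff_prod_elem {N : ℕ} (L : List ℕ) : ∀ ν : Fin N →₀ ℕ,
    MvPowerSeries.coeff (emb ν) ((L.map elem).prod) =
      MvPolynomial.coeff ν ((L.map (fun c => MvPolynomial.esymm (Fin N) ℚ c)).prod) := by
  induction L with
  | nil =>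
    intro ν
    simp only [List.map_nil, List.prod_nil]
    rw [MvPowerSeries.coeff_one, MvPolynomial.coeff_one]
    by_cases h : ν = 0
    · subst h
      simp [emb]
    · rw [if_neg, if_neg (Ne.symm h)]
      intro h2
      apply h
      apply emb_injective
      rw [h2]
      simp [emb]
  | cons c L ih =>
    intro ν
    simp only [List.map_cons, List.prod_cons]
    rw [MvPowerSeries.coeff_mul, MvPolynomial.coeff_mul]
    symm
    refine Finset.sum_bij (fun x _ => (emb x.1, emb x.2)) ?_ ?_ ?_ ?_
    · rintro ⟨a, b⟩ h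
      rw [HasAntidiagonal.mem_antidiagonal] at h ⊢
      simp only at h ⊢
      rw [← emb_add, h]
    · rintro ⟨a, b⟩ _ ⟨a', b'⟩ _ h
      simp only [Prod.mk.injEq] at h ⊢
      exact ⟨emb_injective h.1, emb_injective h.2⟩
    · rintro ⟨a, b⟩ h
      rw [HasAntidiagonal.mem_antidiagonal] at h
      simp only at h
      have hz : ∀ i, N ≤ i → a i + b i = 0 := by
        intro i hi
        have h1 := DFunLike.congr_fun h i
        rw [emb_notin ν hi] at h1
        simpa using h1
      obtain ⟨a', rfl⟩ := exists_emb (N := N) (d := a) (fun i hi => by have := hz i hi; omega)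
      obtain ⟨b', rfl⟩ := exists_emb (N := N) (d := b) (fun i hi => by have := hz i hi; omega)
      refine ⟨(a', b'), ?_, rfl⟩
      rw [HasAntidiagonal.mem_antidiagonal]
      simp only
      apply emb_injective
      rw [emb_add, h]
    · rintro ⟨a, b⟩ _
      simp only
      rw [coeff_elem, ih]

lemma coeff_elemPart {N n : ℕ} (l : n.Partition) (ν : Fin N →₀ ℕ) :
    MvPowerSeries.coeff (emb ν) (elemPart l) =
      ((MvPolynomial.coeff ν (MvPolynomial.esymmPart (Fin N) ℤ l) : ℤ) : ℚ) := by
  have h1 : elemPart l = (l.parts.toList.map elem).prod := by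
    unfold elemPart
    conv_lhs => rw [← Multiset.coe_toList l.parts]
    rw [Multiset.map_coe, Multiset.prod_coe]
  rw [h1, coeff_prod_elem, ← H553RK.esymmPart_toList,
    ← H553RK.map_esymmPart (Int.castRingHom ℚ) l, MvPolynomial.coeff_map]
  rfl

lemma exists_bound (d : ℕ →₀ ℕ) : ∃ (N : ℕ) (ν : Fin N →₀ ℕ), emb ν = d := by
  refine ⟨d.support.sup id + 1, exists_emb (fun i hi => ?_)⟩
  by_contra hne
  have h1 : i ∈ d.support := Finsupp.mem_support_iff.mpr hne
  have h2 : i ≤ d.support.sup id := Finset.le_sup (f := id) h1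
  omega

/-- For all `k ≥ 1`, `n ≥ 1` and every partition `μ` of `k n`, the symmetric function
`R_k(e_μ)` is `e`-positive: it is a combination of the `e_l` (`l` a partition of `n`) with
nonnegative integer coefficients, and these are its only expansion coefficients over `ℚ`. -/
theorem result (k n : ℕ) (hk : 1 ≤ k) (hn : 1 ≤ n) (μ : (k * n).Partition) :
    ∃ c : n.Partition → ℕ,
      Rk k (elemPart μ) = ∑ l : n.Partition, (c l : ℚ) • elemPart l ∧
      ∀ c' : n.Partition → ℚ, Rk k (elemPart μ) = ∑ l : n.Partition, c' l • elemPart l →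
        ∀ l, c' l = c l := by
  obtain ⟨c, hc⟩ := H553RK.fin_main hk n μ
  have hmain : Rk k (elemPart μ) = ∑ l : n.Partition, (c l : ℚ) • elemPart l := by
    ext d
    obtain ⟨N, ν, rfl⟩ := exists_bound d
    rw [coeff_Rk]
    have h1 : k • emb ν = emb (k • ν) := (Finsupp.mapDomain_smul k ν).symm
    rw [h1, coeff_elemPart, hc N ν, map_sum]
    push_cast
    refine Finset.sum_congr rfl (fun l _ => ?_)
    rw [map_smul, coeff_elemPart, smul_eq_mul]
  refine ⟨c, hmain, ?_⟩
  intro c' hc'
  rw [hmain] at hc'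
  have hcoef : ∀ (b : n.Partition → ℚ) (ν : Fin n →₀ ℕ),
      MvPowerSeries.coeff (emb ν) (∑ l : n.Partition, b l • elemPart l) =
        MvPolynomial.coeff ν (∑ l, b l • MvPolynomial.esymmPart (Fin n) ℚ l) := by
    intro b ν
    rw [map_sum, MvPolynomial.coeff_sum]
    refine Finset.sum_congr rfl (fun l _ => ?_)
    rw [map_smul, MvPolynomial.coeff_smul, coeff_elemPart,
      ← H553RK.map_esymmPart (Int.castRingHom ℚ) l, MvPolynomial.coeff_map]
    rfl
  have h2 : ∑ l, c' l • MvPolynomial.esymmPart (Fin n) ℚ l =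
      ∑ l, (c l : ℚ) • MvPolynomial.esymmPart (Fin n) ℚ l := by
    ext ν
    rw [← hcoef, ← hcoef, hc']
  exact H553RK.indep c' (fun l => (c l : ℚ)) h2

end Pool.Agent.Results.MP_8b86ce_co.EPositive
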